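import Pool.Agent.Lib.MP_3ecb7c_co.Main

namespace Pool.Agent.Results.MP_3ecb7c_co.MaxEdges

open Pool.Agent.Lib.MP_3ecb7c_co

/-- The class C(n,k) is nonempty exactly in the listed cases, and then the maximum number of
edges is the stated function of n and k. -/
theorem result (n k : ℕ) (hk : 1 ≤ k) :
    ((edgeCounts n k).Nonempty ↔
      (k = 1 ∧ n = 1) ∨ (2 ≤ k ∧ k ≤ n ∧ Even (n - k)) ∨ (3 ≤ k ∧ k + 3 ≤ n ∧ Odd (n - k))) ∧
    ((edgeCounts n k).Nonempty → IsGreatest (edgeCounts n k)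
      (if Even (n - k) then (n - k) * (n - k + 2) / 2
        else if n - k ≤ k then (n - k + 1).choose 2
        else (n - k + 1).choose 2 - (n - k) / 4)) :=
  ⟨⟨fun ⟨_, h⟩ => (upper hk h).1, fun h => ⟨_, lower h⟩⟩,
    fun ⟨_, h⟩ => ⟨lower (upper hk h).1, fun _ hm => (upper hk hm).2⟩⟩

end Pool.Agent.Results.MP_3ecb7c_co.MaxEdges
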